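import Mathlib
import Pool.Agent.DPF.Stmts
import Pool.Agent.DPK.DefsD

/-!
# Dade's conjecture: reduction to central extensions with kernel in the commutator subgroup:
statements of the modules
-/

namespace Pool.Agent.DPH

open Pool.Agent.DP Pool.Agent.DPC Pool.Agent.DPM Pool.Agent.DPN Pool.Agent.DPF
  Pool.Agent.Lib_helper13 Representation
open Pool.Agent.Lib_helper13.Dade (pCore DadeHolds dadeSum)

/-- STM: a central extension which belongs to the same class and whose kernel lies in the commutator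
subgroup. -/
def Stmt_STM : Prop :=
  ∀ (L K : Type) [Group L] [Fintype L] [Group K] [Fintype K] (π : L →* K),
    Function.Surjective π → π.ker ≤ Subgroup.center L → ∀ μ : π.ker →* ℂˣ,
    Function.Injective μ →
    ∃ (L1 : Type) (_ : Group L1) (_ : Fintype L1) (π1 : L1 →* K) (μ1 : π1.ker →* ℂˣ)
      (i : L →* L1) (B : Subgroup L1), Function.Surjective π1 ∧
      π1.ker ≤ Subgroup.center L1 ∧ Function.Injective μ1 ∧ Function.Injective i ∧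
      (∀ l, π1 (i l) = π l) ∧ (∀ (u : π.ker) (h : i u ∈ π1.ker), μ1 ⟨i u, h⟩ = μ u) ∧
      (∀ x, ∃ b ∈ B, ∃ z ∈ π1.ker, x = b * z) ∧ ∀ x ∈ B, π1 x = 1 → x ∈ ⁅B, B⁆

/-- CPR: the chain sums of a central product. -/
def Stmt_CPR : Prop :=
  ∀ (B L K : Type) [Group B] [Fintype B] [Group L] [Fintype L] [Group K] [Fintype K]
    (𝔐 : Ideal (integralClosure ℤ ℂ)) (ℓ : ℕ) [Fact ℓ.Prime], 𝔐.IsMaximal →
    (ℓ : integralClosure ℤ ℂ) ∈ 𝔐 → ∀ (j : B →* L) (π : L →* K), Function.Injective j →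
    Function.Surjective (π.comp j) → π.ker ≤ Subgroup.center L →
    ∀ (μ : π.ker →* ℂˣ) (μB : (π.comp j).ker →* ℂˣ),
    (∀ (u : (π.comp j).ker) (h : j u ∈ π.ker), μ ⟨j u, h⟩ = μB u) →
    (∀ (d : ℕ) (c : L → (integralClosure ℤ ℂ) ⧸ 𝔐), padicValNat ℓ (Nat.card π.ker) < d →
      DKU 𝔐 ℓ d π μ ⊤ c ≠ 0 →
      ∃ (d' : ℕ) (c' : B → (integralClosure ℤ ℂ) ⧸ 𝔐),
        padicValNat ℓ (Nat.card (π.comp j).ker) < d' ∧
        DKU 𝔐 ℓ d' (π.comp j) μB ⊤ c' ≠ 0) ∧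
    ∀ (d' : ℕ) (c' : B → (integralClosure ℤ ℂ) ⧸ 𝔐),
      padicValNat ℓ (Nat.card (π.comp j).ker) < d' → DKU 𝔐 ℓ d' (π.comp j) μB ⊤ c' ≠ 0 →
      ∃ (d : ℕ) (c : L → (integralClosure ℤ ℂ) ⧸ 𝔐), padicValNat ℓ (Nat.card π.ker) < d ∧
        DKU 𝔐 ℓ d π μ ⊤ c ≠ 0

/-- TDQ: a nonvanishing twisted chain sum gives a counterexample. -/
def Stmt_TDQ : Prop :=
  ∀ (L K : Type) [Group L] [Fintype L] [Group K] [Fintype K]
    (𝔐 : Ideal (integralClosure ℤ ℂ)) (ℓ : ℕ) [Fact ℓ.Prime], 𝔐.IsMaximal →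
    (ℓ : integralClosure ℤ ℂ) ∈ 𝔐 → ∀ π : L →* K, Function.Surjective π → pCore ℓ K = ⊥ →
    π.ker ≤ Subgroup.center L → ∀ μ : π.ker →* ℂˣ, Function.Injective μ → ∀ (d : ℕ)
    (c : L → (integralClosure ℤ ℂ) ⧸ 𝔐), padicValNat ℓ (Nat.card π.ker) < d →
    DKU 𝔐 ℓ d π μ ⊤ c ≠ 0 →
    ∃ (L' : Type) (_ : Group L') (_ : Finite L') (q : L →* L'), Function.Surjective q ∧
      q.ker ≤ π.ker ∧ IsPGroup ℓ q.ker ∧ pCore ℓ L' ≤ Subgroup.center L' ∧ ¬ DadeHolds ℓ L'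

/-- DTP: passage from the blocks of a normal subgroup to the blocks of the group. -/
def Stmt_DTP : Prop :=
  ∀ (L K : Type) [Group L] [Fintype L] [Group K] [Fintype K]
    (𝔐 : Ideal (integralClosure ℤ ℂ)) (ℓ : ℕ) [Fact ℓ.Prime], 𝔐.IsMaximal →
    (ℓ : integralClosure ℤ ℂ) ∈ 𝔐 → ∀ π : L →* K, Function.Surjective π → pCore ℓ K = ⊥ →
    π.ker ≤ Subgroup.center L → ∀ (μ : π.ker →* ℂˣ) (M : Subgroup K), M.Normal →
    ∀ (d : ℕ) (ω : L → (integralClosure ℤ ℂ) ⧸ 𝔐), Pos 𝔐 ℓ π μ M ω →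
    DKU 𝔐 ℓ d π μ M ω ≠ 0 →
    padicValNat ℓ (Nat.card π.ker) < d ∧
      ∃ c : L → (integralClosure ℤ ℂ) ⧸ 𝔐, DKU 𝔐 ℓ d π μ ⊤ c ≠ 0

/-- ZQC: the quotients of a central extension of a group with trivial centre. -/
def Stmt_ZQC : Prop :=
  ∀ (L K L' : Type) [Group L] [Finite L] [Group K] [Finite K] [Group L'] [Finite L']
    (π : L →* K), Function.Surjective π → π.ker ≤ Subgroup.center L →
    Subgroup.center K = ⊥ → IsCyclic π.ker → π.ker ≤ ⁅(⊤ : Subgroup L), ⊤⁆ →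
    ∀ q : L →* L', Function.Surjective q → q.ker ≤ π.ker →
    ∃ π' : L' →* K, (∀ l, π' (q l) = π l) ∧ Function.Surjective π' ∧
      π'.ker = Subgroup.center L' ∧ IsCyclic (Subgroup.center L') ∧
      Subgroup.center L' ≤ ⁅(⊤ : Subgroup L'), ⊤⁆

/-- STE: a counterexample whose centre is cyclic and lies in the commutator subgroup. -/
def Stmt_STE : Prop :=
  ∀ (L K : Type) [Group L] [Fintype L] [Group K] [Fintype K]
    (𝔐 : Ideal (integralClosure ℤ ℂ)) (ℓ : ℕ) [Fact ℓ.Prime], 𝔐.IsMaximal →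
    (ℓ : integralClosure ℤ ℂ) ∈ 𝔐 → ∀ π : L →* K, Function.Surjective π → pCore ℓ K = ⊥ →
    Subgroup.center K = ⊥ → π.ker ≤ Subgroup.center L → ∀ μ : π.ker →* ℂˣ,
    Function.Injective μ → ∀ (M : Subgroup K), M.Normal →
    ∀ (d : ℕ) (ω : L → (integralClosure ℤ ℂ) ⧸ 𝔐), Pos 𝔐 ℓ π μ M ω →
    DKU 𝔐 ℓ d π μ M ω ≠ 0 →
    ∃ (Y : Type) (_ : Group Y) (_ : Finite Y) (πY : Y →* K), Function.Surjective πY ∧
      πY.ker = Subgroup.center Y ∧ IsCyclic (Subgroup.center Y) ∧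
      Subgroup.center Y ≤ ⁅(⊤ : Subgroup Y), ⊤⁆ ∧ pCore ℓ Y ≤ Subgroup.center Y ∧
      ¬ DadeHolds ℓ Y

end Pool.Agent.DPH
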