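import Mathlib
import Pool.Agent.DPH.Stmts
import Pool.Agent.DP.QB

/-!
# CPR: the chain sums of a central product
-/

set_option autoImplicit false

namespace Pool.Agent.DPH

open Pool.Agent.DP Pool.Agent.DPC Pool.Agent.DPM Pool.Agent.DPN Pool.Agent.DPF
  Pool.Agent.Lib_helper13 Representation
open Pool.Agent.Lib_helper13.Dade (pCore DadeHolds dadeSum)

namespace CPR

section One

variable {B L K : Type} [Group B] [Group L] [Group K] (j : B →* L) (π : L →* K)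

/-- Restriction of functions along `j`. -/
def rs (V : Subgroup K) (ψ : ↥(V.comap π) → ℂ) : ↥(V.comap (π.comp j)) → ℂ :=
  fun b => ψ ⟨j b, b.2⟩

theorem ker_mem (V : Subgroup K) (z : π.ker) : (z : L) ∈ V.comap π := by
  show π z ∈ V
  rw [MonoidHom.mem_ker.mp z.2]
  exact V.one_mem

theorem mul_ker_mem (V : Subgroup K) (b : ↥(V.comap (π.comp j))) (z : π.ker) :
    j b * (z : L) ∈ V.comap π :=
  mul_mem (show j (b : B) ∈ V.comap π from b.2) (ker_mem π V z)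

/-- The restriction of `j`. -/
def jV (V : Subgroup K) : ↥(V.comap (π.comp j)) →* ↥(V.comap π) :=
  (j.comp (V.comap (π.comp j)).subtype).codRestrict (V.comap π) (fun b => b.2)

theorem jV_coe (V : Subgroup K) (b : ↥(V.comap (π.comp j))) : (jV j π V b : L) = j b := rfl

/-- The product map. -/
def mV (hc : π.ker ≤ Subgroup.center L) (V : Subgroup K) :
    ↥(V.comap (π.comp j)) × π.ker →* ↥(V.comap π) where
  toFun p := ⟨j p.1 * (p.2 : L), mul_ker_mem j π V p.1 p.2⟩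
  map_one' := by
    apply Subtype.ext
    simp
  map_mul' := by
    rintro ⟨b, z⟩ ⟨b', z'⟩
    apply Subtype.ext
    show j ((b : B) * b') * ((z : L) * z') = (j b * z) * (j b' * z')
    have h1 := Subgroup.mem_center_iff.mp (hc z.2) (j b')
    rw [map_mul, mul_assoc (j (b : B)) (z : L), ← mul_assoc (z : L) (j (b' : B)), ← h1]
    simp only [mul_assoc]

variable {j π}

theorem exists_jz (hs : Function.Surjective (π.comp j)) (x : L) :
    ∃ (b : B) (z : π.ker), x = j b * (z : L) := by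
  obtain ⟨b, hb⟩ := hs (π x)
  refine ⟨b, ⟨(j b)⁻¹ * x, ?_⟩, by simp⟩
  rw [MonoidHom.mem_ker, map_mul, map_inv]
  have h1 : π (j b) = π x := hb
  rw [h1, inv_mul_cancel]

theorem mem_of_jz {V : Subgroup K} {b : B} {z : π.ker} (h : j b * (z : L) ∈ V.comap π) :
    b ∈ V.comap (π.comp j) := by
  have h1 : π (j b * (z : L)) ∈ V := h
  rw [map_mul, MonoidHom.mem_ker.mp z.2, mul_one] at h1
  exact h1

theorem mV_surj (hc : π.ker ≤ Subgroup.center L) (hs : Function.Surjective (π.comp j))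
    (V : Subgroup K) : Function.Surjective (mV j π hc V) := by
  rintro ⟨x, hx⟩
  obtain ⟨b, z, rfl⟩ := exists_jz hs x
  exact ⟨(⟨b, mem_of_jz hx⟩, z), rfl⟩

theorem ovl_mul {V : Subgroup K} {μ : π.ker →* ℂˣ} (hc : π.ker ≤ Subgroup.center L)
    {ψ : ↥(V.comap π) → ℂ} (ho : OvL π.ker μ _ ψ) (x : ↥(V.comap π)) (z : π.ker)
    (h : (x : L) * (z : L) ∈ V.comap π) :
    ψ ⟨(x : L) * (z : L), h⟩ = ((μ z : ℂˣ) : ℂ) * ψ x := by
  have h1 := ho ⟨z, ker_mem π V z⟩ x z.2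
  rw [← h1]
  congr 1
  apply Subtype.ext
  exact Subgroup.mem_center_iff.mp (hc z.2) (x : L)

theorem card_comap [Finite L] (hs : Function.Surjective π) (V : Subgroup K) :
    Nat.card ↥(V.comap π) = Nat.card V * Nat.card π.ker := by
  have h1 : Function.Surjective ((π.comp (V.comap π).subtype).codRestrict V (fun x => x.2)) := by
    rintro ⟨v, hv⟩
    obtain ⟨x, rfl⟩ := hs v
    exact ⟨⟨x, hv⟩, rfl⟩
  have h2 := Subgroup.card_mul_index ((π.comp (V.comap π).subtype).codRestrict V (fun x => x.2)).ker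
  rw [Subgroup.index_ker, MonoidHom.range_eq_top.mpr h1, Subgroup.card_top] at h2
  rw [← h2, mul_comm]
  congr 1
  refine Nat.card_congr ⟨fun x => ⟨(x : ↥(V.comap π)), ?_⟩, fun x => ⟨⟨x, ker_mem π V x⟩, ?_⟩,
    ?_, ?_⟩
  · have h3 := MonoidHom.mem_ker.mp x.2
    exact congrArg Subtype.val h3
  · rw [MonoidHom.mem_ker]
    apply Subtype.ext
    exact MonoidHom.mem_ker.mp x.2
  · intro x
    rfl
  · intro x
    rfl

end One

section Two

variable {B L K : Type} [Group B] [Fintype B] [Group L] [Fintype L] [Group K] [Fintype K]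
  {j : B →* L} {π : L →* K} {μ : π.ker →* ℂˣ} {μB : (π.comp j).ker →* ℂˣ}

omit [Fintype B] [Fintype L] [Fintype K] in
theorem rs_ovl (hμ : ∀ (u : (π.comp j).ker) (h : j u ∈ π.ker), μ ⟨j u, h⟩ = μB u)
    {V : Subgroup K} {ψ : ↥(V.comap π) → ℂ} (ho : OvL π.ker μ _ ψ) :
    OvL (π.comp j).ker μB _ (rs j π V ψ) := by
  intro s t h
  have hk : j (s : B) ∈ π.ker := h
  have h1 := ho ⟨j s, s.2⟩ ⟨j t, t.2⟩ hk
  have h2 := hμ ⟨s, h⟩ hk
  rw [← h2]
  refine Eq.trans ?_ h1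
  show ψ _ = ψ _
  congr 1
  apply Subtype.ext
  show j ((s : B) * t) = j s * j t
  rw [map_mul]

/-- The product of a function on `V_B` with `μ`. -/
def pr (μ : π.ker →* ℂˣ) {V : Subgroup K} (φ : ↥(V.comap (π.comp j)) → ℂ)
    (p : ↥(V.comap (π.comp j)) × π.ker) : ℂ :=
  φ p.1 * ((μ p.2 : ℂˣ) : ℂ)

omit [Fintype K] in
theorem sum_pr {V : Subgroup K} (φ : ↥(V.comap (π.comp j)) → ℂ) :
    ∑ p, pr (j := j) μ φ p * pr (j := j) μ φ p⁻¹ =
      (∑ b, φ b * φ b⁻¹) * Nat.card π.ker := by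
  rw [Fintype.sum_prod_type, Finset.sum_mul]
  refine Finset.sum_congr rfl fun b _ => ?_
  have h1 : ∀ z : π.ker, pr (j := j) μ φ (b, z) * pr (j := j) μ φ (b, z)⁻¹ = φ b * φ b⁻¹ := by
    intro z
    show φ b * ((μ z : ℂˣ) : ℂ) * (φ b⁻¹ * ((μ z⁻¹ : ℂˣ) : ℂ)) = φ b * φ b⁻¹
    have h2 : ((μ z : ℂˣ) : ℂ) * ((μ z⁻¹ : ℂˣ) : ℂ) = 1 := by
      rw [← Units.val_mul, ← map_mul, mul_inv_cancel, map_one, Units.val_one]
    calc φ b * ((μ z : ℂˣ) : ℂ) * (φ b⁻¹ * ((μ z⁻¹ : ℂˣ) : ℂ))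
        = φ b * φ b⁻¹ * (((μ z : ℂˣ) : ℂ) * ((μ z⁻¹ : ℂˣ) : ℂ)) := by ring
      _ = φ b * φ b⁻¹ := by rw [h2, mul_one]
  rw [Finset.sum_congr rfl (fun z _ => h1 z), Finset.sum_const, Finset.card_univ, nsmul_eq_mul,
    ← Nat.card_eq_fintype_card, mul_comm]

theorem pr_irr {V : Subgroup K} {φ : ↥(V.comap (π.comp j)) → ℂ} (hφ : IsIrr φ) :
    IsIrr (pr (j := j) μ φ) := by
  have h1 : IsChr (pr (j := j) μ φ) := by
    have h2 := (hφ.isChr.comp (MonoidHom.fst ↥(V.comap (π.comp j)) π.ker)).mul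
      ((isChr_lin μ).comp (MonoidHom.snd ↥(V.comap (π.comp j)) π.ker))
    exact h2
  apply h1.isIrr
  rw [sum_pr, hφ.sum_self, Nat.card_prod]
  push_cast
  rfl

omit [Fintype B] [Fintype L] [Fintype K] in
theorem pr_eq (hc : π.ker ≤ Subgroup.center L) {V : Subgroup K} {ψ : ↥(V.comap π) → ℂ}
    (ho : OvL π.ker μ _ ψ) (p : ↥(V.comap (π.comp j)) × π.ker) :
    ψ (mV j π hc V p) = pr (j := j) μ (rs j π V ψ) p := by
  have h1 := ovl_mul hc ho (jV j π V p.1) p.2 (mul_ker_mem j π V p.1 p.2)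
  show ψ ⟨j p.1 * (p.2 : L), _⟩ = ψ ⟨j p.1, _⟩ * ((μ p.2 : ℂˣ) : ℂ)
  rw [mul_comm]
  exact h1

theorem rs_irr (hc : π.ker ≤ Subgroup.center L) (hs : Function.Surjective (π.comp j))
    {V : Subgroup K} {ψ : ↥(V.comap π) → ℂ} (hψ : IsIrr ψ) (ho : OvL π.ker μ _ ψ) :
    IsIrr (rs j π V ψ) := by
  have h1 : IsChr (rs j π V ψ) := hψ.isChr.comp (jV j π V)
  apply h1.isIrr
  have h2 := QB.infl (mV_surj hc hs V) hψ
  have h3 : (fun s => ψ (mV j π hc V s)) = pr (j := j) μ (rs j π V ψ) := by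
    ext p
    exact pr_eq hc ho p
  rw [h3] at h2
  have h4 := h2.sum_self
  rw [sum_pr, Nat.card_prod] at h4
  push_cast at h4
  exact mul_right_cancel₀ natCard_ne_zero h4

theorem rs_inj (hc : π.ker ≤ Subgroup.center L) (hs : Function.Surjective (π.comp j))
    {V : Subgroup K} {ψ ψ' : ↥(V.comap π) → ℂ} (ho : OvL π.ker μ _ ψ) (ho' : OvL π.ker μ _ ψ')
    (h : rs j π V ψ = rs j π V ψ') : ψ = ψ' := by
  ext x
  obtain ⟨p, rfl⟩ := mV_surj hc hs V x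
  rw [pr_eq hc ho, pr_eq hc ho', h]

theorem rs_surj (hc : π.ker ≤ Subgroup.center L) (hs : Function.Surjective (π.comp j))
    (hμ : ∀ (u : (π.comp j).ker) (h : j u ∈ π.ker), μ ⟨j u, h⟩ = μB u)
    {V : Subgroup K} {φ : ↥(V.comap (π.comp j)) → ℂ} (hφ : IsIrr φ)
    (ho : OvL (π.comp j).ker μB _ φ) :
    ∃ ψ : ↥(V.comap π) → ℂ, IsIrr ψ ∧ OvL π.ker μ _ ψ ∧ rs j π V ψ = φ := by
  have hk : ∀ p ∈ (mV j π hc V).ker, ∀ b, pr (j := j) μ φ (p * (b, 1)) = φ b := by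
    rintro ⟨a, z⟩ hp b
    have h1 : j a * (z : L) = 1 := congrArg Subtype.val (MonoidHom.mem_ker.mp hp)
    have h2 : (a : B) ∈ (π.comp j).ker := by
      rw [MonoidHom.mem_ker]
      show π (j a) = 1
      have h3 := congrArg π h1
      rw [map_mul, MonoidHom.mem_ker.mp z.2, mul_one, map_one] at h3
      exact h3
    have h3 := hμ ⟨a, h2⟩ h2
    have h4 : (⟨j a, h2⟩ : π.ker) = z⁻¹ := by
      apply Subtype.ext
      show j a = (z : L)⁻¹
      exact eq_inv_of_mul_eq_one_left h1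
    rw [h4] at h3
    show φ (a * b) * ((μ (z * 1) : ℂˣ) : ℂ) = φ b
    rw [ho a b h2, mul_one]
    have h5 : ((μB ⟨a, h2⟩ : ℂˣ) : ℂ) * ((μ z : ℂˣ) : ℂ) = 1 := by
      rw [← h3, ← Units.val_mul, ← map_mul, inv_mul_cancel, map_one, Units.val_one]
    calc ((μB ⟨a, h2⟩ : ℂˣ) : ℂ) * φ b * ((μ z : ℂˣ) : ℂ)
        = ((μB ⟨a, h2⟩ : ℂˣ) : ℂ) * ((μ z : ℂˣ) : ℂ) * φ b := by ring
      _ = φ b := by rw [h5, one_mul]
  have h0 : ∑ n : (mV j π hc V).ker, pr (j := j) μ φ n ≠ 0 := by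
    have h1 : ∀ n : (mV j π hc V).ker, pr (j := j) μ φ n = φ 1 := by
      intro n
      have h2 := hk n n.2 1
      have h3 : (n : ↥(V.comap (π.comp j)) × π.ker) *
          ((1 : ↥(V.comap (π.comp j))), (1 : π.ker)) =
          (n : ↥(V.comap (π.comp j)) × π.ker) := mul_one _
      rw [h3] at h2
      exact h2
    rw [Finset.sum_congr rfl (fun n _ => h1 n), Finset.sum_const, Finset.card_univ, nsmul_eq_mul,
      ← Nat.card_eq_fintype_card]
    exact mul_ne_zero natCard_ne_zero hφ.one_ne_zero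
  obtain ⟨ψ, hψ, hψ'⟩ := QB.defl (mV_surj hc hs V) (pr_irr (μ := μ) hφ) h0
  refine ⟨ψ, hψ, ?_, ?_⟩
  · intro s t h
    obtain ⟨⟨b, z⟩, rfl⟩ := mV_surj hc hs V t
    have h1 : s * mV j π hc V (b, z) = mV j π hc V (b, ⟨s, h⟩ * z) := by
      apply Subtype.ext
      show (s : L) * (j b * (z : L)) = j b * ((s : L) * z)
      rw [← mul_assoc, ← mul_assoc, Subgroup.mem_center_iff.mp (hc h) (j b)]
    rw [h1, ← hψ', ← hψ']
    show φ b * ((μ (⟨s, h⟩ * z) : ℂˣ) : ℂ) = _ * (φ b * ((μ z : ℂˣ) : ℂ))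
    rw [map_mul, Units.val_mul]
    ring
  · ext b
    have h1 := hψ' (b, 1)
    have h2 : mV j π hc V (b, 1) = jV j π V b := by
      apply Subtype.ext
      show j b * ((1 : π.ker) : L) = j b
      rw [Subgroup.coe_one, mul_one]
    rw [h2] at h1
    show ψ (jV j π V b) = φ b
    rw [← h1]
    show φ b * ((μ 1 : ℂˣ) : ℂ) = φ b
    rw [map_one, Units.val_one, mul_one]

theorem defect_iff (hs : Function.Surjective (π.comp j)) {ℓ : ℕ} [Fact ℓ.Prime] {V : Subgroup K}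
    (ψ : ↥(V.comap π) → ℂ) {d d' : ℕ}
    (hd : d + padicValNat ℓ (Nat.card (π.comp j).ker) = d' + padicValNat ℓ (Nat.card π.ker)) :
    HasDefect ℓ ψ d ↔ HasDefect ℓ (rs j π V ψ) d' := by
  have hπ : Function.Surjective π := by
    intro k
    obtain ⟨b, hb⟩ := hs k
    exact ⟨j b, hb⟩
  have h1 : rs j π V ψ 1 = ψ 1 := by
    show ψ ⟨j (1 : B), _⟩ = ψ 1
    congr 1
    apply Subtype.ext
    exact map_one j
  unfold HasDefect
  rw [h1, card_comap hπ V, card_comap hs V, padicValNat.mul Nat.card_pos.ne' Nat.card_pos.ne',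
    padicValNat.mul Nat.card_pos.ne' Nat.card_pos.ne']
  constructor
  · rintro ⟨n, hn, hn'⟩
    exact ⟨n, hn, by omega⟩
  · rintro ⟨n, hn, hn'⟩
    exact ⟨n, hn, by omega⟩

theorem isIntegral_unit {G : Type} [Group G] [Finite G] (f : G →* ℂˣ) (g : G) :
    IsIntegral ℤ ((f g : ℂˣ) : ℂ) := by
  have h1 : ((f g : ℂˣ) : ℂ) ^ Nat.card G = 1 := by
    rw [← Units.val_pow_eq_pow_val, ← map_pow, pow_card_eq_one', map_one, Units.val_one]
  refine IsIntegral.of_pow (Nat.card_pos (α := G)) ?_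
  rw [h1]
  exact isIntegral_one

omit [Fintype B] [Fintype L] [Fintype K] in
theorem isConj_jz (hc : π.ker ≤ Subgroup.center L) (hs : Function.Surjective (π.comp j))
    (b : B) (z : π.ker) {x : L} (h : IsConj x (j b * (z : L))) :
    ∃ a : B, x = j (a * b * a⁻¹) * (z : L) := by
  obtain ⟨l, hl⟩ := isConj_iff.mp h.symm
  obtain ⟨a, w, rfl⟩ := exists_jz hs l
  refine ⟨a, ?_⟩
  rw [← hl, map_mul, map_mul, map_inv]
  have h1 := Subgroup.mem_center_iff.mp (hc w.2)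
  have h2 := Subgroup.mem_center_iff.mp (hc z.2)
  calc j a * (w : L) * (j b * (z : L)) * (j a * (w : L))⁻¹
      = j a * ((w : L) * (j b * (z : L) * (w : L)⁻¹)) * (j a)⁻¹ := by group
    _ = j a * (j b * (z : L)) * (j a)⁻¹ := by
        rw [← h1 (j b * (z : L) * (w : L)⁻¹), inv_mul_cancel_right]
    _ = j a * j b * ((z : L) * (j a)⁻¹) := by group
    _ = j a * j b * (j a)⁻¹ * (z : L) := by rw [← h2 (j a)⁻¹]; group

omit [Fintype B] [Fintype L] [Fintype K] in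
theorem isConj_iff_jz (hc : π.ker ≤ Subgroup.center L) (hj : Function.Injective j)
    (hs : Function.Surjective (π.comp j)) (a b : B) (z : π.ker) :
    IsConj (j a * (z : L)) (j b * (z : L)) ↔ IsConj a b := by
  constructor
  · intro h
    obtain ⟨c, hc'⟩ := isConj_jz hc hs b z h
    have h1 := hj (mul_right_cancel hc')
    exact (isConj_iff.mpr ⟨c, h1.symm⟩).symm
  · intro h
    obtain ⟨c, rfl⟩ := isConj_iff.mp h
    refine isConj_iff.mpr ⟨j c, ?_⟩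
    rw [map_mul, map_mul, map_inv]
    have h2 := Subgroup.mem_center_iff.mp (hc z.2)
    calc j c * (j a * (z : L)) * (j c)⁻¹ = j c * j a * ((z : L) * (j c)⁻¹) := by group
      _ = j c * j a * (j c)⁻¹ * (z : L) := by rw [← h2 (j c)⁻¹]; group

theorem wt_eq (hc : π.ker ≤ Subgroup.center L) (hj : Function.Injective j)
    (hs : Function.Surjective (π.comp j)) {V : Subgroup K} {ψ : ↥(V.comap π) → ℂ}
    (ho : OvL π.ker μ _ ψ) (b : B) (z : π.ker) :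
    wt ψ (fun y => conjInd ((V.comap π).subtype y) (j b * (z : L))) =
      ((μ z : ℂˣ) : ℂ) *
        wt (rs j π V ψ) (fun y => conjInd ((V.comap (π.comp j)).subtype y) b) := by
  have h1 : rs j π V ψ 1 = ψ 1 := by
    show ψ ⟨j (1 : B), _⟩ = ψ 1
    congr 1
    apply Subtype.ext
    exact map_one j
  rw [wt, wt, h1, ← mul_div_assoc, Finset.mul_sum]
  congr 1
  symm
  refine Fintype.sum_of_injective (fun a : ↥(V.comap (π.comp j)) => mV j π hc V (a, z)) ?_ _ _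
    ?_ ?_
  · intro a a' h
    have h2 : j (a : B) * (z : L) = j (a' : B) * (z : L) := congrArg Subtype.val h
    exact Subtype.ext (hj (mul_right_cancel h2))
  · intro y hy
    have h2 : conjInd ((V.comap π).subtype y) (j b * (z : L)) = 0 := by
      classical
      rw [conjInd, if_neg]
      intro h3
      obtain ⟨a, ha⟩ := isConj_jz hc hs b z h3
      apply hy
      have h4 : (V.comap π).subtype y ∈ V.comap π := y.2
      rw [ha] at h4
      exact ⟨⟨a * b * a⁻¹, mem_of_jz h4⟩, Subtype.ext ha.symm⟩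
    rw [h2, zero_mul]
  · intro a
    have h2 : ψ (mV j π hc V (a, z)) = rs j π V ψ a * ((μ z : ℂˣ) : ℂ) := pr_eq hc ho (a, z)
    have h3 : conjInd ((V.comap π).subtype (mV j π hc V (a, z))) (j b * (z : L)) =
        conjInd ((V.comap (π.comp j)).subtype a) b :=
      conjInd_congr (isConj_iff_jz hc hj hs a b z)
    rw [h2, h3]
    ring

theorem cen_eq (𝔐 : Ideal (integralClosure ℤ ℂ)) (hc : π.ker ≤ Subgroup.center L)
    (hj : Function.Injective j) (hs : Function.Surjective (π.comp j)) {V : Subgroup K}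
    {ψ : ↥(V.comap π) → ℂ} (hψ : IsIrr ψ) (ho : OvL π.ker μ _ ψ) (b : B) (z : π.ker) :
    cen 𝔐 (V.comap π).subtype ψ (j b * (z : L)) =
      red 𝔐 ((μ z : ℂˣ) : ℂ) * cen 𝔐 (V.comap (π.comp j)).subtype (rs j π V ψ) b := by
  rw [cen, cen, wt_eq hc hj hs ho, red_mul 𝔐 (isIntegral_unit μ z)]
  apply isIntegral_wt (rs_irr hc hs hψ ho)
  · intro g x
    exact conjInd_conj (g : B) (x : B) b
  · intro y
    exact isIntegral_conjInd _ _

theorem cen_j (𝔐 : Ideal (integralClosure ℤ ℂ)) (hc : π.ker ≤ Subgroup.center L)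
    (hj : Function.Injective j) (hs : Function.Surjective (π.comp j)) {V : Subgroup K}
    {ψ : ↥(V.comap π) → ℂ} (hψ : IsIrr ψ) (ho : OvL π.ker μ _ ψ) (b : B) :
    cen 𝔐 (V.comap π).subtype ψ (j b) =
      cen 𝔐 (V.comap (π.comp j)).subtype (rs j π V ψ) b := by
  have h1 := cen_eq 𝔐 hc hj hs hψ ho b 1
  rw [Subgroup.coe_one, mul_one, map_one, Units.val_one, red_one, one_mul] at h1
  exact h1

theorem dku_eq (𝔐 : Ideal (integralClosure ℤ ℂ)) {ℓ : ℕ} [Fact ℓ.Prime]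
    (hc : π.ker ≤ Subgroup.center L) (hj : Function.Injective j)
    (hs : Function.Surjective (π.comp j))
    (hμ : ∀ (u : (π.comp j).ker) (h : j u ∈ π.ker), μ ⟨j u, h⟩ = μB u) {d d' : ℕ}
    (hd : d + padicValNat ℓ (Nat.card (π.comp j).ker) = d' + padicValNat ℓ (Nat.card π.ker))
    (c : L → (integralClosure ℤ ℂ) ⧸ 𝔐)
    (hcr : ∀ (b : B) (z : π.ker), c (j b * (z : L)) = red 𝔐 ((μ z : ℂˣ) : ℂ) * c (j b)) :
    DKU 𝔐 ℓ d π μ ⊤ c = DKU 𝔐 ℓ d' (π.comp j) μB ⊤ (fun b => c (j b)) := by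
  unfold DKU
  refine Finset.sum_congr rfl fun σ _ => ?_
  have hcard : Nat.card {ψ : ↥((stb σ).comap π) → ℂ // IsIrr ψ ∧ OvL π.ker μ _ ψ ∧
      HasDefect ℓ ψ d ∧ ∀ g ∈ (⊤ : Subgroup K).comap π,
        cen 𝔐 ((stb σ).comap π).subtype ψ g = c g} =
      Nat.card {φ : ↥((stb σ).comap (π.comp j)) → ℂ // IsIrr φ ∧ OvL (π.comp j).ker μB _ φ ∧
      HasDefect ℓ φ d' ∧ ∀ g ∈ (⊤ : Subgroup K).comap (π.comp j),
        cen 𝔐 ((stb σ).comap (π.comp j)).subtype φ g = (fun b => c (j b)) g} := by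
    refine Nat.card_congr (Equiv.ofBijective (fun ψ => ⟨rs j π (stb σ) ψ.1,
      rs_irr hc hs ψ.2.1 ψ.2.2.1, rs_ovl hμ ψ.2.2.1,
      (defect_iff hs ψ.1 hd).mp ψ.2.2.2.1, ?_⟩) ⟨?_, ?_⟩)
    · intro b _
      rw [← cen_j 𝔐 hc hj hs ψ.2.1 ψ.2.2.1]
      exact ψ.2.2.2.2 (j b) (Subgroup.mem_top (π (j b)))
    · intro ψ ψ' h
      apply Subtype.ext
      exact rs_inj hc hs ψ.2.2.1 ψ'.2.2.1 (congrArg Subtype.val h)
    · rintro ⟨φ, h1, h2, h3, h4⟩
      obtain ⟨ψ, hψ, ho, rfl⟩ := rs_surj hc hs hμ h1 h2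
      refine ⟨⟨ψ, hψ, ho, (defect_iff hs ψ hd).mpr h3, ?_⟩, rfl⟩
      intro g _
      obtain ⟨b, z, rfl⟩ := exists_jz hs g
      rw [cen_eq 𝔐 hc hj hs hψ ho, h4 b (Subgroup.mem_top _), hcr]
  rw [hcard]

end Two

end CPR

open CPR in
theorem CPR_thm : Stmt_CPR := by
  intro B L K _ _ _ _ _ _ 𝔐 ℓ _ h𝔐 hℓ j π hj hs hc μ μB hμ
  have hex : ∀ {L' : Type} [Group L'] [Fintype L'] (π' : L' →* K) (μ' : π'.ker →* ℂˣ) (d : ℕ)
      (c : L' → (integralClosure ℤ ℂ) ⧸ 𝔐), DKU 𝔐 ℓ d π' μ' ⊤ c ≠ 0 →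
      ∃ (σ : Finset (Subgroup K)) (ψ : ↥((stb σ).comap π') → ℂ), IsIrr ψ ∧
        OvL π'.ker μ' _ ψ ∧ ∀ g, cen 𝔐 ((stb σ).comap π').subtype ψ g = c g := by
    intro L' _ _ π' μ' d c h
    obtain ⟨σ, _, hσ⟩ := Finset.exists_ne_zero_of_sum_ne_zero h
    have h1 : Nat.card {ψ : ↥((stb σ).comap π') → ℂ // IsIrr ψ ∧ OvL π'.ker μ' _ ψ ∧
        HasDefect ℓ ψ d ∧ ∀ g ∈ (⊤ : Subgroup K).comap π',
          cen 𝔐 ((stb σ).comap π').subtype ψ g = c g} ≠ 0 := by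
      intro h2
      apply hσ
      rw [h2, Nat.cast_zero, mul_zero, mul_zero]
    obtain ⟨⟨ψ, h2, h3, _, h5⟩⟩ := (Nat.card_ne_zero.mp h1).1
    exact ⟨σ, ψ, h2, h3, fun g => h5 g (Subgroup.mem_top _)⟩
  refine ⟨?_, ?_⟩
  · intro d c hd h
    obtain ⟨σ, ψ, h2, h3, h5⟩ := hex π μ d c h
    have hcr : ∀ (b : B) (z : π.ker), c (j b * (z : L)) = red 𝔐 ((μ z : ℂˣ) : ℂ) * c (j b) := by
      intro b z
      rw [← h5, ← h5, cen_eq 𝔐 hc hj hs h2 h3, cen_j 𝔐 hc hj hs h2 h3]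
    refine ⟨d - padicValNat ℓ (Nat.card π.ker) + padicValNat ℓ (Nat.card (π.comp j).ker),
      fun b => c (j b), by omega, ?_⟩
    rw [← dku_eq 𝔐 hc hj hs hμ (d := d) (by omega) c hcr]
    exact h
  · intro d' c' hd h
    obtain ⟨σ, φ, h2, h3, h5⟩ := hex (π.comp j) μB d' c' h
    obtain ⟨ψ, hψ, ho, rfl⟩ := rs_surj hc hs hμ h2 h3
    have hcr : ∀ (b : B) (z : π.ker), cen 𝔐 ((stb σ).comap π).subtype ψ (j b * (z : L)) =
        red 𝔐 ((μ z : ℂˣ) : ℂ) * cen 𝔐 ((stb σ).comap π).subtype ψ (j b) := by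
      intro b z
      rw [cen_eq 𝔐 hc hj hs hψ ho, cen_j 𝔐 hc hj hs hψ ho]
    have hc' : (fun b => cen 𝔐 ((stb σ).comap π).subtype ψ (j b)) = c' := by
      ext b
      rw [cen_j 𝔐 hc hj hs hψ ho, h5]
    refine ⟨d' - padicValNat ℓ (Nat.card (π.comp j).ker) + padicValNat ℓ (Nat.card π.ker),
      cen 𝔐 ((stb σ).comap π).subtype ψ, by omega, ?_⟩
    rw [dku_eq 𝔐 hc hj hs hμ (d' := d') (by omega) _ hcr, hc']
    exact h

end Pool.Agent.DPH
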