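import Mathlib
import Pool.Agent.DPN.Base
import Pool.Agent.DPN.MINX
import Pool.Agent.DPN.DLO
import Pool.Agent.DPG.NPT
import Pool.Agent.DPH.Stmts

/-!
# DTP: passage from the blocks of a normal subgroup to the blocks of the group
-/

set_option linter.unusedSectionVars false

namespace Pool.Agent.DPH

open Pool.Agent.DP Pool.Agent.DPC Pool.Agent.DPM Pool.Agent.DPN Pool.Agent.DPF
  Pool.Agent.DPG Pool.Agent.Lib_helper13 Representation
open Pool.Agent.Lib_helper13.Dade (pCore DadeHolds dadeSum)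

namespace DTP

variable {L K : Type} [Group L] [Fintype L] [Group K] [Fintype K]

theorem ker_central_subgroupOf {π : L →* K} (hUc : π.ker ≤ Subgroup.center L) (S : Subgroup L) :
    π.ker.subgroupOf S ≤ Subgroup.center S := by
  intro z hz
  rw [Subgroup.mem_center_iff]
  intro g
  apply Subtype.ext
  exact Subgroup.mem_center_iff.mp (hUc (Subgroup.mem_subgroupOf.mp hz)) g

theorem ker_le_comap (π : L →* K) (V : Subgroup K) : π.ker ≤ V.comap π := by
  intro z hz
  rw [Subgroup.mem_comap, MonoidHom.mem_ker.mp hz]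
  exact V.one_mem

/-- The defect of a character of a subgroup which contains the kernel. -/
theorem defect_ge {π : L →* K} (hUc : π.ker ≤ Subgroup.center L) (ℓ : ℕ) [Fact ℓ.Prime]
    (S : Subgroup L) [Fintype S] (hS : π.ker ≤ S) {ψ : S → ℂ} (hψ : IsIrr ψ) {d : ℕ}
    (hd : HasDefect ℓ ψ d) : padicValNat ℓ (Nat.card π.ker) ≤ d := by
  have h := DLO.defect_ge all_DEFA ℓ (π.ker.subgroupOf S) (ker_central_subgroupOf hUc S) hψ hd
  rwa [Nat.card_congr (Subgroup.subgroupOfEquivOfLe hS).toEquiv] at h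

/-- No character of the inverse image of the stabilizer of a nonempty chain has minimal defect. -/
theorem no_min {π : L →* K} (hπs : Function.Surjective π) (hUc : π.ker ≤ Subgroup.center L)
    (𝔐 : Ideal (integralClosure ℤ ℂ)) (ℓ : ℕ) [Fact ℓ.Prime] (hmax : 𝔐.IsMaximal)
    (hℓ : (ℓ : integralClosure ℤ ℂ) ∈ 𝔐) (hcore : pCore ℓ K = ⊥) {σ : Finset (Subgroup K)}
    (hσ : IsCh ℓ ⊥ σ) (hne : σ.Nonempty) [Fintype ↥((stb σ).comap π)]
    {ψ : ↥((stb σ).comap π) → ℂ} (hψ : IsIrr ψ)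
    (hd : HasDefect ℓ ψ (padicValNat ℓ (Nat.card π.ker))) : False := by
  classical
  obtain ⟨D, hD, hbot⟩ := hσ.exists_bot hne
  obtain ⟨D', ⟨hD'p, hD'c⟩, hD'm⟩ := CHC.exists_lift' hπs hUc hcore D (hσ.1 D hD).1
  have hDS : D ≤ stb σ := by
    intro x hx
    rw [mem_stb']
    intro E hE w
    have hxE := hbot E hE hx
    constructor
    · intro hw
      exact mul_mem (mul_mem hxE hw) (inv_mem hxE)
    · intro hw
      have h2 : w = x⁻¹ * (x * w * x⁻¹) * x := by group
      rw [h2]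
      exact mul_mem (mul_mem (inv_mem hxE) hw) hxE
  have hD'S : D' ≤ (stb σ).comap π := by
    intro x hx
    rw [Subgroup.mem_comap]
    apply hDS
    rw [← hD'm]
    exact Subgroup.mem_map_of_mem π hx
  have hnorm : ∀ t ∈ (stb σ).comap π, ∀ x, x ∈ D' ↔ t * x * t⁻¹ ∈ D' := by
    intro t ht x
    have h1 : t ∈ stb ({D'} : Finset (Subgroup L)) := by
      rw [CHC.stb_eq hUc hπs (σ := {D'}) (by
        intro E hE
        rw [Finset.mem_singleton] at hE
        subst hE
        exact ⟨hD'p, hD'c⟩), Subgroup.mem_comap, mem_stb']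
      intro E hE y
      obtain ⟨E', hE', rfl⟩ := mem_mapCh.1 hE
      rw [Finset.mem_singleton] at hE'
      subst hE'
      rw [hD'm]
      exact mem_stb'.mp (Subgroup.mem_comap.mp ht) D hD y
    exact mem_stb'.mp h1 D' (Finset.mem_singleton_self _) x
  have hcle : pCore ℓ L ≤ π.ker := CHC.core_le_ker hπs hcore
  have hcS : pCore ℓ L ≤ (stb σ).comap π := hcle.trans (ker_le_comap π _)
  have hv : padicValNat ℓ (Nat.card ↥((pCore ℓ L).subgroupOf ((stb σ).comap π))) =
      padicValNat ℓ (Nat.card π.ker) := by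
    rw [Nat.card_congr (Subgroup.subgroupOfEquivOfLe hcS).toEquiv,
      CHC.card_core hπs hUc hcore, padicValNat.prime_pow]
  refine DLO.no_min MINX_thm BTC_thm 𝔐 ℓ hmax hℓ ((pCore ℓ L).subgroupOf ((stb σ).comap π))
    (D'.subgroupOf ((stb σ).comap π)) ?_ ?_ ?_ ?_ ?_ hψ (by rw [hv]; exact hd)
  · refine le_trans ?_ (ker_central_subgroupOf hUc ((stb σ).comap π))
    intro z hz
    rw [Subgroup.mem_subgroupOf] at hz ⊢
    exact hcle hz
  · exact (isPGroup_pCore ℓ).of_equiv (Subgroup.subgroupOfEquivOfLe hcS).symm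
  · refine ⟨fun n hn g => ?_⟩
    rw [Subgroup.mem_subgroupOf] at hn ⊢
    exact (hnorm g g.2 n).mp hn
  · exact hD'p.of_equiv (Subgroup.subgroupOfEquivOfLe hD'S).symm
  · intro hle
    have h1 : D' ≤ π.ker := by
      intro x hx
      apply hcle
      exact Subgroup.mem_subgroupOf.mp (hle (Subgroup.mem_subgroupOf.mpr hx :
        (⟨x, hD'S hx⟩ : ↥((stb σ).comap π)) ∈ D'.subgroupOf ((stb σ).comap π)))
    have h2 : D = ⊥ := by
      rw [← hD'm, Subgroup.map_eq_bot_iff]
      exact h1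
    exact (hσ.1 D hD).2.ne' h2

/-- A constituent of the restriction to the inverse image of a normal subgroup of a character of
minimal defect. -/
theorem top {π : L →* K} (hUc : π.ker ≤ Subgroup.center L)
    (𝔐 : Ideal (integralClosure ℤ ℂ)) (ℓ : ℕ) [Fact ℓ.Prime] (μ : π.ker →* ℂˣ) (M : Subgroup K)
    [M.Normal] (ω : L → (integralClosure ℤ ℂ) ⧸ 𝔐) {χ : L → ℂ} (hχ : IsIrr χ)
    (hχo : Ov π μ χ) (hd : HasDefect ℓ χ (padicValNat ℓ (Nat.card π.ker)))
    (hc : ∀ g ∈ M.comap π, cen 𝔐 (MonoidHom.id L) χ g = ω g) : ¬ Pos 𝔐 ℓ π μ M ω := by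
  classical
  intro hpos
  have hMn : (M.comap π).Normal := inferInstance
  have hk := ker_le_comap π M
  obtain ⟨θ, hθ, hip⟩ := Cliff.exists_under hχ (M.comap π).subtype
  have hcl : ClG (M.comap π).subtype (MulAut.conjNormal : L →* MulAut ↥(M.comap π))
      (QuotientGroup.mk' (M.comap π)) := by
    refine ⟨Subtype.val_injective, fun y a => ?_, fun y => ?_⟩
    · exact MulAut.conjNormal_apply y a
    · rw [Subgroup.range_subtype, QuotientGroup.mk'_apply, QuotientGroup.eq_one_iff]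
  obtain ⟨e, he⟩ := hθ.exists_defect (ℓ := ℓ)
  have h1 : e ≤ padicValNat ℓ (Nat.card π.ker) :=
    all_DEFA _ L (L ⧸ M.comap π) ℓ _ _ _ hcl χ θ hχ hθ hip _ e hd he
  have h2 : padicValNat ℓ (Nat.card π.ker) ≤ e := defect_ge hUc ℓ (M.comap π) hk hθ he
  have h3 : e = padicValNat ℓ (Nat.card π.ker) := le_antisymm h1 h2
  have hov : Ov π μ (ext0 θ : L → ℂ) := by
    have hle : M.comap π ≤ (⊤ : Subgroup L) := le_top
    refine NPT.ov hUc hle hk hχo hθ ?_
    exact hip
  refine hpos θ hθ ?_ (h3 ▸ he) ?_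
  · intro s t hs
    have h4 := hov ⟨(s : L), hs⟩ (t : L)
    rw [ext0_of_mem θ t.2, ext0_of_mem θ ((M.comap π).mul_mem s.2 t.2)] at h4
    exact h4
  · intro g hg
    rw [← hc g hg]
    have h5 := (SUMM_thm _ _ _ _ _ _ hcl).2.2.2 θ χ (fun y => conjInd y g) hθ hχ hip
      (fun a x => conjInd_conj _ _ _) (by
        intro y hy
        rw [conjInd, if_neg]
        intro h6
        apply hy
        rw [Subgroup.range_subtype]
        obtain ⟨c, hc'⟩ := isConj_iff.mp h6.symm
        rw [← hc']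
        exact hMn.conj_mem g hg c)
    rw [cen, cen]
    have h6 : wt χ (fun y => conjInd ((MonoidHom.id L) y) g) =
        wt θ (fun y => conjInd ((M.comap π).subtype y) g) := h5
    rw [h6]

end DTP

open Classical in
/-- **DTP** -/
theorem DTP_thm : Stmt_DTP := by
  intro L K _ _ _ _ 𝔐 ℓ _ hmax hℓ π hπs hcore hUc μ M hM d ω hpos hne
  have := hM
  refine ⟨?_, ?_⟩
  · -- the defect
    rw [DKU] at hne
    obtain ⟨σ, hσ, hne'⟩ := Finset.exists_ne_zero_of_sum_ne_zero hne
    have hcd : Nat.card {ψ : ↥((stb σ).comap π) → ℂ // IsIrr ψ ∧ OvL π.ker μ _ ψ ∧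
        HasDefect ℓ ψ d ∧ ∀ g ∈ M.comap π, cen 𝔐 ((stb σ).comap π).subtype ψ g = ω g} ≠ 0 := by
      intro h
      apply hne'
      rw [h, Nat.cast_zero, mul_zero, mul_zero]
    rw [Nat.card_ne_zero] at hcd
    obtain ⟨⟨ψ, hψ, hψo, hψd, hψc⟩⟩ := hcd.1
    have hge := DTP.defect_ge hUc ℓ _ (DTP.ker_le_comap π (stb σ)) hψ hψd
    by_contra hcon
    have hdv : d = padicValNat ℓ (Nat.card π.ker) := le_antisymm (not_lt.mp hcon) hge
    rw [hdv] at hψd
    rcases σ.eq_empty_or_nonempty with hσe | hσn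
    · subst hσe
      have hStop : (stb (∅ : Finset (Subgroup K))).comap π = ⊤ := by
        rw [stb_empty, Subgroup.comap_top]
      let e' : ↥((stb (∅ : Finset (Subgroup K))).comap π) ≃* L :=
        (MulEquiv.subgroupCongr hStop).trans Subgroup.topEquiv
      have he' : ∀ y, e' y = (y : L) := fun y => rfl
      have hback : (fun y : ↥((stb (∅ : Finset (Subgroup K))).comap π) =>
          (fun x : L => ψ (e'.symm x)) (e' y)) = ψ := by
        funext y
        simp
      have hirr : IsIrr (fun x : L => ψ (e'.symm x)) := hψ.comp_mulEquiv e'.symm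
      refine DTP.top hUc 𝔐 ℓ μ M ω hirr ?_ ?_ ?_ hpos
      · intro z x
        have h1 := hψo (e'.symm z) (e'.symm x) (by
          have h2 : ((e'.symm (z : L)) : L) = z := by rw [← he', MulEquiv.apply_symm_apply]
          rw [h2]
          exact z.2)
        have h3 : (⟨((e'.symm (z : L)) : L), (by
          have h2 : ((e'.symm (z : L)) : L) = z := by rw [← he', MulEquiv.apply_symm_apply]
          rw [h2]
          exact z.2)⟩ : π.ker) = z := by
          apply Subtype.ext
          change ((e'.symm (z : L)) : L) = z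
          rw [← he', MulEquiv.apply_symm_apply]
        rw [h3, ← map_mul] at h1
        exact h1
      · rw [← hasDefect_comp_equiv e', hback]
        exact hψd
      · intro g hg
        have h2 := congrFun (cen_comp_equiv 𝔐 e' (MonoidHom.id L) (fun x : L => ψ (e'.symm x))) g
        rw [hback] at h2
        rw [← h2, ← hψc g hg]
        rfl
    · exact DTP.no_min hπs hUc 𝔐 ℓ hmax hℓ hcore (mem_Ch.mp hσ) hσn hψ hψd
  · -- split according to the central function
    have hfin : (⋃ σ ∈ Ch ℓ (⊥ : Subgroup K), {x : L → (integralClosure ℤ ℂ) ⧸ 𝔐 |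
        ∃ ψ : ↥((stb σ).comap π) → ℂ, IsIrr ψ ∧
        cen 𝔐 ((stb σ).comap π).subtype ψ = x}).Finite := by
      apply Set.Finite.biUnion (Finset.finite_toSet _)
      intro τ _
      exact finite_cen 𝔐 _
    have hC : ∀ σ ∈ Ch ℓ (⊥ : Subgroup K), ∀ ψ : ↥((stb σ).comap π) → ℂ, IsIrr ψ →
        cen 𝔐 ((stb σ).comap π).subtype ψ ∈ hfin.toFinset := by
      intro σ hσ ψ hψ
      rw [Set.Finite.mem_toFinset, Set.mem_iUnion₂]
      exact ⟨σ, hσ, ψ, hψ, rfl⟩
    have hsplit : DKU 𝔐 ℓ d π μ M ω =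
        ∑ x ∈ hfin.toFinset, ∑ σ ∈ Ch ℓ (⊥ : Subgroup K),
          ((-1 : ℚ) ^ σ.card * (Nat.card (stb σ) : ℚ)) *
          Nat.card {η : ↥((stb σ).comap π) → ℂ // IsIrr η ∧ (OvL π.ker μ _ η ∧
            HasDefect ℓ η d ∧ ∀ g ∈ M.comap π, cen 𝔐 ((stb σ).comap π).subtype η g = ω g) ∧
            cen 𝔐 ((stb σ).comap π).subtype η = x} := by
      rw [Finset.sum_comm, DKU]
      refine Finset.sum_congr rfl fun σ hσ => ?_
      rw [TD.card_split (fun η : ↥((stb σ).comap π) → ℂ => OvL π.ker μ _ η ∧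
          HasDefect ℓ η d ∧ ∀ g ∈ M.comap π, cen 𝔐 ((stb σ).comap π).subtype η g = ω g)
        (fun η => cen 𝔐 ((stb σ).comap π).subtype η) hfin.toFinset (hC σ hσ)]
      rw [Nat.cast_sum, Finset.mul_sum, Finset.mul_sum]
      refine Finset.sum_congr rfl fun x _ => ?_
      rw [mul_assoc]
    rw [hsplit] at hne
    obtain ⟨x, -, hx'⟩ := Finset.exists_ne_zero_of_sum_ne_zero hne
    have hxQ : ∀ g ∈ M.comap π, x g = ω g := by
      intro g hg
      by_contra hxn
      apply hx'
      refine Finset.sum_eq_zero fun σ hσ => ?_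
      have hempty : IsEmpty {η : ↥((stb σ).comap π) → ℂ // IsIrr η ∧ (OvL π.ker μ _ η ∧
            HasDefect ℓ η d ∧ ∀ g ∈ M.comap π, cen 𝔐 ((stb σ).comap π).subtype η g = ω g) ∧
            cen 𝔐 ((stb σ).comap π).subtype η = x} := by
        constructor
        rintro ⟨η, h1, ⟨-, -, h2⟩, h3⟩
        apply hxn
        rw [← h3]
        exact h2 g hg
      rw [@Nat.card_of_isEmpty _ hempty, Nat.cast_zero, mul_zero]
    refine ⟨x, fun h0 => hx' ?_⟩
    rw [← h0, DKU]
    refine Finset.sum_congr rfl fun σ _ => ?_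
    rw [mul_assoc]
    congr 3
    refine Nat.card_congr (Equiv.subtypeEquivRight fun η => ?_)
    constructor
    · rintro ⟨h1, ⟨h2, h3, -⟩, h4⟩
      exact ⟨h1, h2, h3, fun g _ => congrFun h4 g⟩
    · rintro ⟨h1, h2, h3, h4⟩
      have h5 : cen 𝔐 ((stb σ).comap π).subtype η = x :=
        funext fun g => h4 g (Subgroup.mem_top _)
      exact ⟨h1, ⟨h2, h3, fun g hg => by rw [h5]; exact hxQ g hg⟩, h5⟩

end Pool.Agent.DPH
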