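import Pool.Agent.DPH.Stmts

/-!
# A counterexample whose centre is cyclic and lies in the commutator subgroup
-/

namespace Pool.Agent.DPH

open Pool.Agent.DP Pool.Agent.DPC Pool.Agent.DPM Pool.Agent.DPN Pool.Agent.DPF
  Pool.Agent.Lib_helper13 Representation
open Pool.Agent.Lib_helper13.Dade (pCore DadeHolds dadeSum)

namespace STE

/-- The kernel of the restriction, as a subgroup of the kernel. -/
def kmap {L1 K : Type} [Group L1] [Group K] (π1 : L1 →* K) (B : Subgroup L1) :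
    (π1.comp B.subtype).ker →* π1.ker :=
  (B.subtype.comp (π1.comp B.subtype).ker.subtype).codRestrict π1.ker (fun u => u.2)

theorem kmap_inj {L1 K : Type} [Group L1] [Group K] (π1 : L1 →* K) (B : Subgroup L1) :
    Function.Injective (kmap π1 B) := by
  intro u v h
  have h1 := congrArg (fun w : π1.ker => (w : L1)) h
  apply Subtype.ext
  apply Subtype.ext
  exact h1

theorem ker_central {L1 K : Type} [Group L1] [Group K] (π1 : L1 →* K) (B : Subgroup L1)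
    (h : π1.ker ≤ Subgroup.center L1) : (π1.comp B.subtype).ker ≤ Subgroup.center B := by
  intro b hb
  have h1 : (b : L1) ∈ Subgroup.center L1 := h hb
  rw [Subgroup.mem_center_iff] at h1 ⊢
  intro g
  apply Subtype.ext
  exact h1 g

theorem ker_comm {L1 K : Type} [Group L1] [Group K] (π1 : L1 →* K) (B : Subgroup L1)
    (h : ∀ x ∈ B, π1 x = 1 → x ∈ ⁅B, B⁆) : (π1.comp B.subtype).ker ≤ ⁅(⊤ : Subgroup B), ⊤⁆ := by
  intro b hb
  have h1 : (b : L1) ∈ ⁅B, B⁆ := h b b.2 hb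
  have h2 : Subgroup.map B.subtype ⁅(⊤ : Subgroup B), ⊤⁆ = ⁅B, B⁆ := by
    rw [Subgroup.map_commutator, ← MonoidHom.range_eq_map, Subgroup.range_subtype]
  rw [← h2] at h1
  obtain ⟨b', hb', e⟩ := h1
  have e' : b' = b := Subtype.ext e
  rw [← e']
  exact hb'

theorem comp_surj {L1 K : Type} [Group L1] [Group K] (π1 : L1 →* K) (B : Subgroup L1)
    (hs : Function.Surjective π1) (h : ∀ x, ∃ b ∈ B, ∃ z ∈ π1.ker, x = b * z) :
    Function.Surjective (π1.comp B.subtype) := by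
  intro k
  obtain ⟨x, hx⟩ := hs k
  obtain ⟨b, hb, z, hz, e⟩ := h x
  refine ⟨⟨b, hb⟩, ?_⟩
  show π1 b = k
  rw [← hx, e, map_mul, (MonoidHom.mem_ker).1 hz, mul_one]

theorem cyc {G : Type} [Group G] [Finite G] (μ : G →* ℂˣ) (h : Function.Injective μ) :
    IsCyclic G := by
  apply isCyclic_of_subgroup_isDomain ((Units.coeHom ℂ).comp μ)
  intro a b hab
  apply h
  apply Units.ext
  exact hab

end STE

theorem STE_thm (h1 : Stmt_STM) (h2 : Stmt_CPR) (h3 : Stmt_TDQ) (h4 : Stmt_DTP)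
    (h5 : Stmt_ZQC) : Stmt_STE := by
  intro L K _ _ _ _ 𝔐 ℓ _ hM hℓ π hπ hK hZ hker μ hμ M hN d ω hpos hne
  obtain ⟨hd, c, hc⟩ := h4 L K 𝔐 ℓ hM hℓ π hπ hK hker μ M hN d ω hpos hne
  obtain ⟨L1, _, _, π1, μ1, i, B, hs1, hk1, hm1, hi, hpi, hmu, hB, hBc⟩ := h1 L K π hπ hker μ hμ
  have he : π1.comp i = π := MonoidHom.ext hpi
  subst he
  obtain ⟨d1, c1, hd1, hc1⟩ := (h2 L L1 K 𝔐 ℓ hM hℓ i π1 hi hπ hk1 μ1 μ
    (fun u h => hmu u h)).2 d c hd hc
  letI : Fintype B := Fintype.ofFinite B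
  have hsB := STE.comp_surj π1 B hs1 hB
  obtain ⟨d2, c2, hd2, hc2⟩ := (h2 B L1 K 𝔐 ℓ hM hℓ B.subtype π1 B.subtype_injective hsB hk1 μ1
    (μ1.comp (STE.kmap π1 B)) (fun u h => rfl)).1 d1 c1 hd1 hc1
  have hmB : Function.Injective (μ1.comp (STE.kmap π1 B)) := hm1.comp (STE.kmap_inj π1 B)
  obtain ⟨L', _, _, q, hq, hqk, _, hp, hD⟩ := h3 B K 𝔐 ℓ hM hℓ (π1.comp B.subtype) hsB hK
    (STE.ker_central π1 B hk1) (μ1.comp (STE.kmap π1 B)) hmB d2 c2 hd2 hc2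
  obtain ⟨πY, -, hY1, hY2, hY3, hY4⟩ := h5 B K L' (π1.comp B.subtype) hsB
    (STE.ker_central π1 B hk1) hZ (STE.cyc _ hmB) (STE.ker_comm π1 B hBc) q hq hqk
  exact ⟨L', inferInstance, inferInstance, πY, hY1, hY2, hY3, hY4, hp, hD⟩

end Pool.Agent.DPH
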