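import Mathlib
import Pool.Agent.DPN.Base
import Pool.Agent.DPH.Stmts

/-!
# TDQ: a nonvanishing twisted chain sum gives a counterexample
-/

set_option linter.unusedSectionVars false

namespace Pool.Agent.DPH

open Pool.Agent.DP Pool.Agent.DPC Pool.Agent.DPM Pool.Agent.DPN Pool.Agent.DPF
  Pool.Agent.Lib_helper13 Representation
open Pool.Agent.Lib_helper13.Dade (pCore DadeHolds dadeSum)

open Classical in
/-- **TDQ** -/
theorem TDQ_thm : Stmt_TDQ := by
  intro L K _ _ _ _ 𝔐 ℓ _ hmax hℓ π hπs hcore hUc μ hinj d x hd hne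
  have hπk : ∀ l, π l = 1 ↔ l ∈ π.ker := fun l => MonoidHom.mem_ker.symm
  have hcyc : IsCyclic π.ker := isCyclic_of_injective_ringHom ((Units.coeHom ℂ).comp μ)
    (Units.val_injective.comp hinj)
  have hx : ∑ σ ∈ Ch ℓ (⊥ : Subgroup K),
        ((-1 : ℚ) ^ σ.card * (Nat.card (stb σ) : ℚ)) *
        Nat.card {η : ↥((stb σ).comap π) → ℂ // IsIrr η ∧ OvL π.ker μ _ η ∧
          HasDefect ℓ η d ∧ cen 𝔐 ((stb σ).comap π).subtype η = x} ≠ 0 := by
    intro h0
    apply hne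
    unfold DKU
    rw [← h0]
    refine Finset.sum_congr rfl fun σ _ => ?_
    rw [mul_assoc]
    congr 3
    refine Nat.card_congr (Equiv.subtypeEquivRight fun η => ?_)
    constructor
    · rintro ⟨h1, h2, h3, h4⟩
      exact ⟨h1, h2, h3, funext fun g => h4 g (Subgroup.mem_top _)⟩
    · rintro ⟨h1, h2, h3, h4⟩
      exact ⟨h1, h2, h3, fun g _ => congrFun h4 g⟩
  -- isolation
  have hUS : ∀ σ ∈ Ch ℓ (⊥ : Subgroup K), π.ker ≤ (stb σ).comap π := by
    intro σ _ u hu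
    rw [Subgroup.mem_comap, (hπk u).mpr hu]
    exact one_mem _
  obtain ⟨L', iL', fL', q', d', c', hq's, hq'U, hq'p, hd', hsum, -⟩ :=
    all_ISOL L (Finset (Subgroup K)) 𝔐 ℓ hmax hℓ π.ker μ hUc hcyc hinj (Ch ℓ (⊥ : Subgroup K))
      (fun σ => (-1 : ℚ) ^ σ.card * (Nat.card (stb σ) : ℚ)) (fun σ => (stb σ).comap π) hUS
      d x hx
  -- the projection of the quotient
  have hker : q'.ker ≤ π.ker := hq'U
  let π' : L' →* K := q'.liftOfSurjective hq's ⟨π, hker⟩
  have hπ' : ∀ l, π' (q' l) = π l := fun l => MonoidHom.liftOfRightInverse_comp_apply _ _ _ _ l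
  have hπ's : Function.Surjective π' := by
    intro k
    obtain ⟨l, hl⟩ := hπs k
    exact ⟨q' l, by rw [hπ', hl]⟩
  have hπ'k : π'.ker = π.ker.map q' := by
    ext l'
    obtain ⟨l, rfl⟩ := hq's l'
    rw [MonoidHom.mem_ker, hπ', hπk, Subgroup.mem_map]
    constructor
    · intro h
      exact ⟨l, h, rfl⟩
    · rintro ⟨u, hu, hul⟩
      have h6 : u⁻¹ * l ∈ q'.ker := by
        rw [MonoidHom.mem_ker, map_mul, map_inv, hul, inv_mul_cancel]
      have h7 := π.ker.mul_mem hu (hq'U h6)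
      rwa [mul_inv_cancel_left] at h7
  have hcent : π'.ker ≤ Subgroup.center L' := by
    rw [hπ'k]
    rintro _ ⟨u, hu, rfl⟩
    rw [Subgroup.mem_center_iff]
    intro g
    obtain ⟨l, rfl⟩ := hq's g
    rw [← map_mul, ← map_mul, Subgroup.mem_center_iff.mp (hUc hu) l]
  have hmap : ∀ V : Subgroup K, (V.comap π).map q' = V.comap π' := by
    intro V
    ext l'
    obtain ⟨l, rfl⟩ := hq's l'
    rw [Subgroup.mem_comap, hπ', Subgroup.mem_map]
    constructor
    · rintro ⟨u, hu, hul⟩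
      rw [Subgroup.mem_comap] at hu
      rwa [← hπ', ← hul, hπ']
    · intro h
      exact ⟨l, h, rfl⟩
  obtain ⟨h6, h7, h8⟩ := CHC_thm L' K ℓ π' hπ's hcent hcore
  have h9 : KK 𝔐 ℓ d' (pCore ℓ L') c' ≠ 0 := by
    have h10 := h8 (fun S => Nat.card S * cnt 𝔐 ℓ d' S.subtype c')
    rw [KK, h10]
    have h11 : ∑ σ ∈ Ch ℓ (⊥ : Subgroup K), (-1 : ℚ) ^ σ.card *
        ((Nat.card ↥((stb σ).comap π') : ℚ) * cnt 𝔐 ℓ d' ((stb σ).comap π').subtype c') =
        (Nat.card π'.ker : ℚ) * ∑ σ ∈ Ch ℓ (⊥ : Subgroup K),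
          (-1 : ℚ) ^ σ.card * (Nat.card (stb σ) : ℚ) *
            cnt 𝔐 ℓ d' (((stb σ).comap π).map q').subtype c' := by
      rw [Finset.mul_sum]
      refine Finset.sum_congr rfl fun σ _ => ?_
      rw [TD.card_comap π' hπ's, hmap, Nat.cast_mul]
      ring
    rw [h11]
    refine mul_ne_zero ?_ hsum
    exact Nat.cast_ne_zero.mpr Nat.card_pos.ne'
  refine ⟨L', iL', inferInstance, q', hq's, hq'U, hq'p, h6, fun h14 => ?_⟩
  obtain ⟨h15, -⟩ := all_DZC L' 𝔐 ℓ hmax hℓ h6 h14 d' c' h9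
  rw [h7] at h15
  have h16 : d' ≤ padicValNat ℓ (Nat.card π'.ker) :=
    (Nat.pow_le_pow_iff_right (Fact.out : ℓ.Prime).one_lt).mp h15
  have h17 : Nat.card π.ker = Nat.card π'.ker * Nat.card q'.ker := by
    have h18 := TD.card_comap q' hq's (π.ker.map q')
    rw [Subgroup.comap_map_eq_self hq'U] at h18
    rw [h18, hπ'k, mul_comm]
  have h19 : padicValNat ℓ (Nat.card π.ker) = padicValNat ℓ (Nat.card π'.ker) +
      padicValNat ℓ (Nat.card q'.ker) := by
    rw [h17, padicValNat.mul Nat.card_pos.ne' Nat.card_pos.ne']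
  omega

end Pool.Agent.DPH
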