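import Mathlib
import Pool.Agent.DPH.Stmts

namespace Pool.Agent.DPH

open Pool.Agent.DP Pool.Agent.DPC Pool.Agent.DPM Pool.Agent.DPN Pool.Agent.DPF
  Pool.Agent.Lib_helper13 Representation

theorem ZQC_thm : Stmt_ZQC := by
  intro L K L' _ _ _ _ _ _ π hπ hc hK hcyc hcomm q hq hker
  let π' : L' →* K := q.liftOfSurjective hq ⟨π, hker⟩
  have hπ' : ∀ l, π' (q l) = π l := fun l => MonoidHom.liftOfRightInverse_comp_apply _ _ _ _ l
  have hπ's : Function.Surjective π' := by
    intro k
    obtain ⟨l, hl⟩ := hπ k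
    exact ⟨q l, by rw [hπ', hl]⟩
  have hk : π'.ker = π.ker.map q := by
    ext l'
    obtain ⟨l, rfl⟩ := hq l'
    rw [MonoidHom.mem_ker, hπ', Subgroup.mem_map]
    constructor
    · intro h
      exact ⟨l, h, rfl⟩
    · rintro ⟨u, hu, hul⟩
      have h6 : u⁻¹ * l ∈ q.ker := by
        rw [MonoidHom.mem_ker, map_mul, map_inv, hul, inv_mul_cancel]
      have h7 := π.ker.mul_mem hu (hker h6)
      rwa [mul_inv_cancel_left, MonoidHom.mem_ker] at h7
  have hle : π.ker.map q ≤ Subgroup.center L' := by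
    rintro _ ⟨u, hu, rfl⟩
    rw [Subgroup.mem_center_iff]
    intro g
    obtain ⟨l, rfl⟩ := hq g
    rw [← map_mul, ← map_mul, Subgroup.mem_center_iff.mp (hc hu) l]
  have heq : π'.ker = Subgroup.center L' := by
    apply le_antisymm
    · rw [hk]
      exact hle
    · intro z hz
      have h1 : π' z ∈ Subgroup.center K := by
        rw [Subgroup.mem_center_iff]
        intro k
        obtain ⟨l, rfl⟩ := hπ's k
        rw [← map_mul, ← map_mul, Subgroup.mem_center_iff.mp hz l]
      rw [hK, Subgroup.mem_bot] at h1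
      exact MonoidHom.mem_ker.mpr h1
  refine ⟨π', hπ', hπ's, heq, ?_, ?_⟩
  · rw [← heq, hk]
    exact isCyclic_of_surjective (q.subgroupMap π.ker) (q.subgroupMap_surjective π.ker)
  · rw [← heq, hk]
    have h1 : Subgroup.map q ⁅(⊤ : Subgroup L), ⊤⁆ = ⁅(⊤ : Subgroup L'), ⊤⁆ := by
      rw [Subgroup.map_commutator, Subgroup.map_top_of_surjective q hq]
    rw [← h1]
    exact Subgroup.map_mono hcomm

end Pool.Agent.DPH
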