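import Mathlib
import Pool.Agent.DPH.STM
import Pool.Agent.DPH.CPR
import Pool.Agent.DPH.TDQ
import Pool.Agent.DPH.DTP
import Pool.Agent.DPH.ZQC
import Pool.Agent.DPH.STE

/-!
# Dade's conjecture: counterexamples whose centre is cyclic and lies in the commutator subgroup
-/

namespace Pool.Agent.DPH

theorem all_STM : Stmt_STM := STM_thm
theorem all_CPR : Stmt_CPR := CPR_thm
theorem all_TDQ : Stmt_TDQ := TDQ_thm
theorem all_DTP : Stmt_DTP := DTP_thm
theorem all_ZQC : Stmt_ZQC := ZQC_thm

/-- The theorem. -/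
theorem all_STE : Stmt_STE := STE_thm all_STM all_CPR all_TDQ all_DTP all_ZQC

end Pool.Agent.DPH
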